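import Pool.Agent.H.MP_dd1c2e_lc.cs.Exit

/-!
# Concentration of the bilinear form under the law of the stopped walk
-/

set_option linter.unusedSectionVars false

namespace Pool.Agent.H.MP_dd1c2e_lc.CS

open Finset

variable {I J K : Type} [Fintype I] [Fintype J] [DecidableEq I] [DecidableEq J] [Fintype K] [DecidableEq K]

theorem Qop_smul (H : I → J → ℝ) (a b c : ℝ) (V : (I ⊕ J → ℝ) → ℝ) (w : I ⊕ J → ℝ) :
    Qop H a b (fun w => c * V w) w = c * Qop H a b V w := by
  unfold Qop
  split_ifs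
  · rw [av_mul_left]
  · rfl

theorem Psi_iter {H : I → J → ℝ} (hH : ∀ i j, H i j ^ 2 = 1) {a b lam η : ℝ}
    (h1 : Real.cosh (lam * a) - 1 ≤ η * Fintype.card I) (h2 : Real.cosh (lam * b) - 1 ≤ η) (h0 : 0 ≤ η)
    [Nonempty I] (R : ℕ) (w : I ⊕ J → ℝ) : (Qop H a b)^[R] (Psi lam) w ≤ (1 + η) ^ R * Psi lam w := by
  induction R generalizing w with
  | zero => simp
  | succ n ih =>
    rw [Function.iterate_succ_apply']
    calc Qop H a b ((Qop H a b)^[n] (Psi lam)) w ≤ Qop H a b (fun w => (1 + η) ^ n * Psi lam w) w :=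
          Qop_mono ih w
      _ = (1 + η) ^ n * Qop H a b (Psi lam) w := Qop_smul H a b _ _ w
      _ ≤ (1 + η) ^ n * ((1 + η) * Psi lam w) :=
          mul_le_mul_of_nonneg_left (Psi_step hH h1 h2 h0 w) (by positivity)
      _ = (1 + η) ^ (n + 1) * Psi lam w := by ring

open Classical in
/-- The probability that the walk has left the box. -/
theorem exit_le {H : I → J → ℝ} (hH : ∀ i j, H i j ^ 2 = 1) {a b lam η : ℝ}
    (h1 : Real.cosh (lam * a) - 1 ≤ η * Fintype.card I) (h2 : Real.cosh (lam * b) - 1 ≤ η) (h0 : 0 ≤ η)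
    (hlam : 0 ≤ lam) [Nonempty I] (R : ℕ) : (Qop H a b)^[R] (fun w => if Box w then 0 else 1) 0 ≤
      (1 + η) ^ R * Fintype.card (I ⊕ J) / Real.cosh (lam / 2) := by
  have hc := Real.cosh_pos (lam / 2)
  have h3 : ∀ w : I ⊕ J → ℝ, (if Box w then (0 : ℝ) else 1) ≤ (Real.cosh (lam / 2))⁻¹ * Psi lam w := by
    intro w
    split_ifs with hw
    · exact mul_nonneg (inv_nonneg.2 hc.le) (Psi_nonneg _ _)
    · unfold Box at hw
      push Not at hw
      obtain ⟨k, hk⟩ := hw
      have h4 : Real.cosh (lam / 2) ≤ Real.cosh (lam * w k) := by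
        rw [Real.cosh_le_cosh, abs_mul, abs_of_nonneg hlam, abs_of_nonneg (by positivity)]
        nlinarith
      have h5 : Real.cosh (lam * w k) ≤ Psi lam w :=
        single_le_sum (f := fun k => Real.cosh (lam * w k)) (fun k _ => (Real.cosh_pos _).le) (mem_univ k)
      rw [inv_mul_eq_div, le_div_iff₀ hc, one_mul]
      exact h4.trans h5
  refine (Qop_iter_mono h3 R 0).trans ?_
  have h6 : (Qop H a b)^[R] (fun w => (Real.cosh (lam / 2))⁻¹ * Psi lam w) 0 =
      (Real.cosh (lam / 2))⁻¹ * (Qop H a b)^[R] (Psi lam) 0 := by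
    have := Qop_iter_sum (ι := Unit) H a b R univ (fun _ => (Real.cosh (lam / 2))⁻¹) (fun _ => Psi lam)
    simp only [univ_unique, sum_singleton] at this
    rw [this]
  rw [h6]
  have h7 := Psi_iter hH h1 h2 h0 R (0 : I ⊕ J → ℝ)
  have h8 : Psi lam (0 : I ⊕ J → ℝ) = Fintype.card (I ⊕ J) := by
    unfold Psi
    simp
  rw [h8] at h7
  have h9 := mul_le_mul_of_nonneg_left h7 (inv_nonneg.2 hc.le)
  refine h9.trans (le_of_eq ?_)
  rw [inv_mul_eq_div]

/-- The bilinear form of the matrix `H`. -/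
noncomputable def Qf (H : I → J → ℝ) (w : I ⊕ J → ℝ) : ℝ := ∑ i, ∑ j, H i j * (w (.inl i) * w (.inr j))

/-- The matrix `H` has entries `±1`, orthogonal rows and orthogonal columns. -/
structure Had (H : I → J → ℝ) (N : ℝ) : Prop where
  sq : ∀ i j, H i j ^ 2 = 1
  row : ∀ i i', ∑ j, H i j * H i' j = if i = i' then N else 0
  col : ∀ j j', ∑ i, H i j * H i j' = if j = j' then N else 0
  cI : (Fintype.card I : ℝ) = N
  cJ : (Fintype.card J : ℝ) = N
  pos : 0 < N

/-- The linear part of the increment. -/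
noncomputable def Lf (H : I → J → ℝ) (a b N : ℝ) (w : I ⊕ J → ℝ) (i : I) : ℝ :=
  a * (∑ j, H i j * w (.inr j)) + b * N * w (.inl i)

theorem Qf_step {H : I → J → ℝ} {N : ℝ} (hH : Had H N) (a b : ℝ) (w : I ⊕ J → ℝ) (s : Bool) (i : I) :
    Qf H (fun k => w k + stp H a b (s, i) k) = Qf H w + a * b * N + sg s * Lf H a b N w i := by
  unfold Qf Lf
  have e1 : ∀ i' j, H i' j * ((w (.inl i') + stp H a b (s, i) (.inl i')) * (w (.inr j) + stp H a b (s, i) (.inr j))) =
      H i' j * (w (.inl i') * w (.inr j)) + (if i' = i then sg s * a * (H i' j * w (.inr j)) else 0) +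
        sg s * b * w (.inl i') * (H i' j * H i j) + (if i' = i then a * b * (H i' j * H i j) else 0) := by
    intro i' j
    simp only [stp]
    split_ifs with h
    · have := sg_sq s
      linear_combination (H i' j * a * (b * H i j)) * this
    · ring
  simp_rw [e1]
  simp only [sum_add_distrib]
  have e2 : ∑ i', ∑ j, (if i' = i then sg s * a * (H i' j * w (.inr j)) else 0) =
      sg s * a * ∑ j, H i j * w (.inr j) := by
    rw [sum_eq_single i]
    · simp [mul_sum]
    · intro i' _ hne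
      simp [hne]
    · simp
  have e3 : ∑ i', ∑ j, sg s * b * w (.inl i') * (H i' j * H i j) = sg s * (b * N * w (.inl i)) := by
    simp_rw [← mul_sum, hH.row]
    simp only [mul_ite, mul_zero]
    rw [sum_ite_eq' univ i, if_pos (mem_univ _)]
    ring
  have e4 : ∑ i', ∑ j, (if i' = i then a * b * (H i' j * H i j) else 0) = a * b * N := by
    rw [sum_eq_single i]
    · simp only [if_true]
      rw [← mul_sum, hH.row, if_pos rfl]
    · intro i' _ hne
      simp [hne]
    · simp
  rw [e2, e3, e4]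
  ring

/-- `∑_i (∑_j H_ij v_j)² = N ∑ v_j²`. -/
theorem sum_row_sq {H : I → J → ℝ} {N : ℝ} (hH : Had H N) (v : J → ℝ) :
    ∑ i, (∑ j, H i j * v j) ^ 2 = N * ∑ j, v j ^ 2 := by
  have e1 : ∀ i, (∑ j, H i j * v j) ^ 2 = ∑ j, ∑ j', v j * v j' * (H i j * H i j') := by
    intro i
    rw [pow_two, sum_mul_sum]
    refine sum_congr rfl fun j _ => sum_congr rfl fun j' _ => by ring
  simp_rw [e1]
  rw [sum_comm, mul_sum]
  refine sum_congr rfl fun j _ => ?_
  rw [sum_comm]
  simp_rw [← mul_sum, hH.col]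
  simp only [mul_ite, mul_zero]
  rw [sum_ite_eq univ j, if_pos (mem_univ _)]
  ring

theorem sum_col_sq {H : I → J → ℝ} {N : ℝ} (hH : Had H N) (v : I → ℝ) :
    ∑ j, (∑ i, H i j * v i) ^ 2 = N * ∑ i, v i ^ 2 := by
  have e1 : ∀ j, (∑ i, H i j * v i) ^ 2 = ∑ i, ∑ i', v i * v i' * (H i j * H i' j) := by
    intro j
    rw [pow_two, sum_mul_sum]
    refine sum_congr rfl fun i _ => sum_congr rfl fun i' _ => by ring
  simp_rw [e1]
  rw [sum_comm, mul_sum]
  refine sum_congr rfl fun i _ => ?_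
  rw [sum_comm]
  simp_rw [← mul_sum, hH.row]
  simp only [mul_ite, mul_zero]
  rw [sum_ite_eq univ i, if_pos (mem_univ _)]
  ring

/-- The variance of one step in the box. -/
theorem Lf_sq {H : I → J → ℝ} {N : ℝ} (hH : Had H N) (a b : ℝ) {w : I ⊕ J → ℝ} (hw : Box w) :
    (av fun i => Lf H a b N w i ^ 2) ≤ (a ^ 2 * N + b ^ 2 * N ^ 2) / 2 := by
  have hN := hH.pos
  have h1 : ∀ i, Lf H a b N w i ^ 2 ≤ 2 * a ^ 2 * (∑ j, H i j * w (.inr j)) ^ 2 + 2 * b ^ 2 * N ^ 2 * w (.inl i) ^ 2 := by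
    intro i
    unfold Lf
    nlinarith [sq_nonneg (a * (∑ j, H i j * w (.inr j)) - b * N * w (.inl i))]
  have hq : ∀ k, w k ^ 2 ≤ 1 / 4 := by
    intro k
    have := pow_le_pow_left₀ (abs_nonneg _) (hw k) 2
    rw [sq_abs] at this
    norm_num at this
    linarith
  have h2 : ∑ j, w (.inr j) ^ 2 ≤ N / 4 := by
    have := sum_le_sum (s := (univ : Finset J)) fun j _ => hq (.inr j)
    rw [sum_const, card_univ, nsmul_eq_mul, hH.cJ] at this
    linarith
  have h3 : ∑ i, w (.inl i) ^ 2 ≤ N / 4 := by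
    have := sum_le_sum (s := (univ : Finset I)) fun j _ => hq (.inl j)
    rw [sum_const, card_univ, nsmul_eq_mul, hH.cI] at this
    linarith
  refine (av_mono h1).trans ?_
  unfold av
  rw [sum_add_distrib, ← mul_sum, ← mul_sum, sum_row_sq hH, hH.cI, div_le_iff₀ hN]
  have h4 := mul_le_mul_of_nonneg_left h2 (by positivity : 0 ≤ 2 * a ^ 2 * N)
  have h5 := mul_le_mul_of_nonneg_left h3 (by positivity : 0 ≤ 2 * b ^ 2 * N ^ 2)
  nlinarith

open Classical in
/-- Second moment of `Q - mean` on the event that the walk stays in the box. -/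
theorem Q_second {H : I → J → ℝ} {N : ℝ} (hH : Had H N) (a b : ℝ) [Nonempty I] (M : ℝ) (r : ℕ)
    {w : I ⊕ J → ℝ} (hw : Box w) : (Qop H a b)^[r] (fun w => if Box w then (Qf H w - M) ^ 2 else 0) w ≤
      (Qf H w + a * b * N * r - M) ^ 2 + r * ((a ^ 2 * N + b ^ 2 * N ^ 2) / 2) := by
  induction r generalizing w with
  | zero => simp [hw]
  | succ n ih =>
    rw [Function.iterate_succ_apply', Qop_of_box H a b _ hw]
    set v := (a ^ 2 * N + b ^ 2 * N ^ 2) / 2 with hv
    have hN := hH.pos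
    have hv0 : 0 ≤ v := by positivity
    have h1 : ∀ p : Bool × I, (Qop H a b)^[n] (fun w => if Box w then (Qf H w - M) ^ 2 else 0)
        (fun k => w k + stp H a b p k) ≤
        (Qf H (fun k => w k + stp H a b p k) + a * b * N * n - M) ^ 2 + n * v := by
      intro p
      by_cases hb : Box (fun k => w k + stp H a b p k)
      · exact ih hb
      · rw [Qop_iter_of_not_box H a b _ hb, if_neg hb]
        positivity
    refine (av_mono h1).trans ?_
    have h2 : (av fun p : Bool × I => (Qf H (fun k => w k + stp H a b p k) + a * b * N * n - M) ^ 2 + n * v) =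
        (Qf H w + a * b * N * (n + 1) - M) ^ 2 + (av fun i => Lf H a b N w i ^ 2) + n * v := by
      rw [av_add, av_const, av_step (fun s i => (Qf H (fun k => w k + stp H a b (s, i) k) + a * b * N * n - M) ^ 2)]
      congr 1
      have e1 : ∀ i : I, ((Qf H (fun k => w k + stp H a b (true, i) k) + a * b * N * n - M) ^ 2 +
          (Qf H (fun k => w k + stp H a b (false, i) k) + a * b * N * n - M) ^ 2) / 2 =
          (Qf H w + a * b * N * (n + 1) - M) ^ 2 + Lf H a b N w i ^ 2 := by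
        intro i
        rw [Qf_step hH, Qf_step hH, sg_true, sg_false]
        ring
      simp_rw [e1]
      rw [av_add, av_const]
    rw [h2]
    have h3 := Lf_sq hH a b hw
    push_cast
    rw [← hv] at h3
    linarith

end Pool.Agent.H.MP_dd1c2e_lc.CS
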