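import Pool.Agent.H.MP_dd1c2e_lc.cs.Walk

/-!
# The stopped walk: exit from the box and second moment of the bilinear form
-/

set_option linter.unusedSectionVars false

namespace Pool.Agent.H.MP_dd1c2e_lc.CS

open Finset

variable {I J K : Type} [Fintype I] [Fintype J] [DecidableEq I] [DecidableEq J] [Fintype K] [DecidableEq K]

theorem Qop_of_not_box (H : I → J → ℝ) (a b : ℝ) (V : (I ⊕ J → ℝ) → ℝ) {w : I ⊕ J → ℝ} (hw : ¬ Box w) :
    Qop H a b V w = V w := by
  unfold Qop
  rw [if_neg hw]

theorem Qop_of_box (H : I → J → ℝ) (a b : ℝ) (V : (I ⊕ J → ℝ) → ℝ) {w : I ⊕ J → ℝ} (hw : Box w) :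
    Qop H a b V w = av (fun p : Bool × I => V (fun k => w k + stp H a b p k)) := by
  unfold Qop
  rw [if_pos hw]

theorem Qop_iter_of_not_box (H : I → J → ℝ) (a b : ℝ) (V : (I ⊕ J → ℝ) → ℝ) {w : I ⊕ J → ℝ} (hw : ¬ Box w) (R : ℕ) :
    (Qop H a b)^[R] V w = V w := by
  induction R with
  | zero => rfl
  | succ n ih => rw [Function.iterate_succ_apply', Qop_of_not_box H a b _ hw, ih]

/-- Average over sign and row. -/
theorem av_step (f : Bool → I → ℝ) :
    (av fun p : Bool × I => f p.1 p.2) = av fun i : I => (f true i + f false i) / 2 := by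
  rw [av_prod, av_comm]
  congr 1
  funext i
  unfold av
  rw [Fintype.sum_bool, Fintype.card_bool]
  norm_num

/-- The potential. -/
noncomputable def Psi (lam : ℝ) (w : K → ℝ) : ℝ := ∑ k, Real.cosh (lam * w k)

theorem Psi_nonneg (lam : ℝ) (w : K → ℝ) : 0 ≤ Psi lam w := sum_nonneg fun _ _ => (Real.cosh_pos _).le

theorem Psi_step {H : I → J → ℝ} (hH : ∀ i j, H i j ^ 2 = 1) {a b lam η : ℝ}
    (h1 : Real.cosh (lam * a) - 1 ≤ η * Fintype.card I) (h2 : Real.cosh (lam * b) - 1 ≤ η) (h0 : 0 ≤ η)
    [Nonempty I] (w : I ⊕ J → ℝ) : Qop H a b (Psi lam) w ≤ (1 + η) * Psi lam w := by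
  by_cases hw : Box w
  swap
  · rw [Qop_of_not_box H a b _ hw]
    nlinarith [Psi_nonneg lam w]
  rw [Qop_of_box H a b _ hw]
  unfold Psi
  rw [av_sum, mul_sum]
  refine sum_le_sum fun k _ => ?_
  have hck := Real.cosh_pos (lam * w k)
  have hcI : (0 : ℝ) < Fintype.card I := by exact_mod_cast Fintype.card_pos
  rw [av_step (fun s i => Real.cosh (lam * (w k + stp H a b (s, i) k)))]
  cases k with
  | inl i =>
    have e1 : ∀ i' : I, (Real.cosh (lam * (w (Sum.inl i) + stp H a b (true, i') (Sum.inl i))) +
        Real.cosh (lam * (w (Sum.inl i) + stp H a b (false, i') (Sum.inl i)))) / 2 =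
        Real.cosh (lam * w (Sum.inl i)) + (if i = i' then Real.cosh (lam * w (Sum.inl i)) *
          (Real.cosh (lam * a) - 1) else 0) := by
      intro i'
      simp only [stp]
      split_ifs
      · simp only [sg_true, sg_false, mul_add, Real.cosh_add]
        rw [show lam * (-1 * a) = -(lam * a) by ring, Real.cosh_neg, Real.sinh_neg,
          show lam * (1 * a) = lam * a by ring]
        ring
      · simp
    simp_rw [e1]
    rw [av_add, av_const]
    unfold av
    rw [sum_ite_eq univ i, if_pos (mem_univ _)]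
    have h3 : Real.cosh (lam * w (Sum.inl i)) * (Real.cosh (lam * a) - 1) / Fintype.card I ≤
        Real.cosh (lam * w (Sum.inl i)) * η := by
      rw [div_le_iff₀ hcI, mul_assoc]
      exact mul_le_mul_of_nonneg_left h1 hck.le
    linarith
  | inr j =>
    have e1 : ∀ i' : I, (Real.cosh (lam * (w (Sum.inr j) + stp H a b (true, i') (Sum.inr j))) +
        Real.cosh (lam * (w (Sum.inr j) + stp H a b (false, i') (Sum.inr j)))) / 2 =
        Real.cosh (lam * w (Sum.inr j)) * Real.cosh (lam * b) := by
      intro i'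
      simp only [stp, sg_true, sg_false, mul_add, Real.cosh_add]
      rw [show lam * (-1 * (b * H i' j)) = -(lam * (b * H i' j)) by ring, Real.cosh_neg, Real.sinh_neg,
        show lam * (1 * (b * H i' j)) = lam * (b * H i' j) by ring]
      have h4 : Real.cosh (lam * (b * H i' j)) = Real.cosh (lam * b) := by
        have h5 : H i' j = 1 ∨ H i' j = -1 := by
          have h6 : (H i' j - 1) * (H i' j + 1) = 0 := by
            have := hH i' j
            linear_combination this
          rcases mul_eq_zero.1 h6 with h7 | h7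
          · exact Or.inl (by linarith)
          · exact Or.inr (by linarith)
        rcases h5 with h5 | h5
        · rw [h5, mul_one]
        · rw [h5, mul_neg_one, mul_neg, Real.cosh_neg]
      rw [← h4]
      ring
    simp_rw [e1]
    rw [av_const]
    nlinarith [mul_le_mul_of_nonneg_left h2 hck.le]

end Pool.Agent.H.MP_dd1c2e_lc.CS
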