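import Mathlib

/-!
# Averages over finite types, the Gibbs inequality, and exponential moments of signed sums

`av f` is the average of `f` over a finite type. `sg b` is the sign `1` or `-1` attached to a bit.
-/

namespace Pool.Agent.H.MP_dd1c2e_lc.CS

open Finset

/-- The average of `f` over a finite type. -/
noncomputable def av {Ω : Type} [Fintype Ω] (f : Ω → ℝ) : ℝ := (∑ ω, f ω) / Fintype.card Ω

theorem av_nonneg {Ω : Type} [Fintype Ω] {f : Ω → ℝ} (h : ∀ ω, 0 ≤ f ω) : 0 ≤ av f :=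
  div_nonneg (sum_nonneg fun ω _ => h ω) (Nat.cast_nonneg _)

theorem av_mono {Ω : Type} [Fintype Ω] {f g : Ω → ℝ} (h : ∀ ω, f ω ≤ g ω) : av f ≤ av g :=
  div_le_div_of_nonneg_right (sum_le_sum fun ω _ => h ω) (Nat.cast_nonneg _)

theorem av_const {Ω : Type} [Fintype Ω] [Nonempty Ω] (c : ℝ) : av (fun _ : Ω => c) = c := by
  unfold av
  rw [sum_const, card_univ, nsmul_eq_mul]
  have : (Fintype.card Ω : ℝ) ≠ 0 := by
    exact_mod_cast Fintype.card_ne_zero
  field_simp

theorem av_add {Ω : Type} [Fintype Ω] (f g : Ω → ℝ) : av (fun ω => f ω + g ω) = av f + av g := by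
  unfold av
  rw [sum_add_distrib, add_div]

theorem av_sub {Ω : Type} [Fintype Ω] (f g : Ω → ℝ) : av (fun ω => f ω - g ω) = av f - av g := by
  unfold av
  rw [sum_sub_distrib, sub_div]

theorem av_mul_left {Ω : Type} [Fintype Ω] (c : ℝ) (f : Ω → ℝ) : av (fun ω => c * f ω) = c * av f := by
  unfold av
  rw [← mul_sum, mul_div_assoc]

theorem av_mul_right {Ω : Type} [Fintype Ω] (c : ℝ) (f : Ω → ℝ) : av (fun ω => f ω * c) = av f * c := by
  unfold av
  rw [← sum_mul, div_mul_eq_mul_div]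

theorem av_neg {Ω : Type} [Fintype Ω] (f : Ω → ℝ) : av (fun ω => -f ω) = -av f := by
  unfold av
  rw [sum_neg_distrib, neg_div]

theorem av_sum {Ω ι : Type} [Fintype Ω] (s : Finset ι) (f : ι → Ω → ℝ) :
    av (fun ω => ∑ i ∈ s, f i ω) = ∑ i ∈ s, av (f i) := by
  unfold av
  rw [sum_comm, sum_div]

theorem av_comm {Ω Ω' : Type} [Fintype Ω] [Fintype Ω'] (f : Ω → Ω' → ℝ) :
    av (fun ω => av (f ω)) = av fun ω' => av fun ω => f ω ω' := by
  unfold av
  simp only [← sum_div]
  rw [sum_comm]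
  ring

theorem av_prod {Ω Ω' : Type} [Fintype Ω] [Fintype Ω'] (f : Ω × Ω' → ℝ) :
    av f = av fun ω => av fun ω' => f (ω, ω') := by
  unfold av
  simp only [← sum_div]
  rw [Fintype.sum_prod_type, Fintype.card_prod, Nat.cast_mul]
  rw [div_div, mul_comm]

theorem av_equiv {Ω Ω' : Type} [Fintype Ω] [Fintype Ω'] (e : Ω ≃ Ω') (f : Ω' → ℝ) :
    (av fun ω => f (e ω)) = av f := by
  unfold av
  rw [e.sum_comp, Fintype.card_congr e]

theorem abs_av_le {Ω : Type} [Fintype Ω] (f : Ω → ℝ) : |av f| ≤ av fun ω => |f ω| := by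
  unfold av
  rw [abs_div, Nat.abs_cast]
  exact div_le_div_of_nonneg_right (abs_sum_le_sum_abs _ _) (Nat.cast_nonneg _)

theorem av_le_of_le {Ω : Type} [Fintype Ω] [Nonempty Ω] {f : Ω → ℝ} {c : ℝ} (h : ∀ ω, f ω ≤ c) : av f ≤ c :=
  (av_mono h).trans_eq (av_const c)

/-- **Gibbs inequality.** For `0 ≤ α ≤ 1` with mean `μ > 0`, the `α`-average of `g` is at most `log (E[e^g]/μ)`. -/
theorem gibbs {Ω : Type} [Fintype Ω] {α g : Ω → ℝ} (h0 : ∀ ω, 0 ≤ α ω) (h1 : ∀ ω, α ω ≤ 1) (hμ : 0 < av α) :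
    (av fun ω => α ω * g ω) ≤ av α * Real.log ((av fun ω => Real.exp (g ω)) / av α) := by
  have hn : Nonempty Ω := by
    by_contra hne
    rw [not_nonempty_iff] at hne
    unfold av at hμ
    simp at hμ
  have hc : (0 : ℝ) < Fintype.card Ω := by exact_mod_cast Fintype.card_pos
  have hs : 0 < ∑ ω, α ω := by
    unfold av at hμ
    by_contra hle
    push Not at hle
    exact absurd hμ (not_lt.2 (div_nonpos_of_nonpos_of_nonneg hle hc.le))
  set s := ∑ ω, α ω with hsdef
  -- Jensen with weights α/s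
  have hj := convexOn_exp.map_sum_le (t := univ) (w := fun ω => α ω / s) (p := g)
    (fun ω _ => div_nonneg (h0 ω) hs.le) (by rw [← sum_div]; exact div_self hs.ne') (fun ω _ => Set.mem_univ _)
  simp only [smul_eq_mul] at hj
  have h2 : ∑ ω, α ω / s * Real.exp (g ω) ≤ (∑ ω, Real.exp (g ω)) / s := by
    rw [sum_div]
    refine sum_le_sum fun ω _ => ?_
    rw [div_mul_eq_mul_div]
    refine div_le_div_of_nonneg_right ?_ hs.le
    exact mul_le_of_le_one_left (Real.exp_pos _).le (h1 ω)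
  have h3 : ∑ ω, α ω / s * g ω ≤ Real.log ((∑ ω, Real.exp (g ω)) / s) := by
    rw [← Real.log_exp (∑ ω, α ω / s * g ω)]
    exact Real.log_le_log (Real.exp_pos _) (hj.trans h2)
  have e1 : (av fun ω => α ω * g ω) = av α * ∑ ω, α ω / s * g ω := by
    unfold av
    rw [← hsdef, mul_sum, sum_div]
    refine sum_congr rfl fun ω _ => ?_
    field_simp
  have e2 : (av fun ω => Real.exp (g ω)) / av α = (∑ ω, Real.exp (g ω)) / s := by
    unfold av
    rw [← hsdef]
    field_simp
  rw [e1, e2]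
  exact mul_le_mul_of_nonneg_left h3 hμ.le

/-- The sign of a bit. -/
def sg (b : Bool) : ℝ := if b then -1 else 1

@[simp] theorem sg_true : sg true = -1 := rfl

@[simp] theorem sg_false : sg false = 1 := rfl

theorem sg_sq (b : Bool) : sg b * sg b = 1 := by cases b <;> simp

theorem abs_sg (b : Bool) : |sg b| = 1 := by cases b <;> simp

theorem sg_xor (a b : Bool) : sg (xor a b) = sg a * sg b := by cases a <;> cases b <;> simp

theorem sg_not (b : Bool) : sg (!b) = -sg b := by cases b <;> simp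

/-- The average of a product over a cube. -/
theorem av_cube_prod {K : Type} [Fintype K] [DecidableEq K] (f : K → Bool → ℝ) :
    (av fun x : K → Bool => ∏ k, f k (x k)) = ∏ k, ((f k true + f k false) / 2) := by
  unfold av
  rw [prod_div_distrib, prod_const, card_univ]
  have h1 : (Fintype.card (K → Bool) : ℝ) = 2 ^ Fintype.card K := by
    rw [Fintype.card_fun, Fintype.card_bool]
    push_cast
    rfl
  rw [h1]
  congr 1
  have h2 := (Finset.prod_univ_sum (fun _ : K => (univ : Finset Bool)) f)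
  rw [Fintype.piFinset_univ] at h2
  rw [← h2]
  refine prod_congr rfl fun k _ => ?_
  simp

/-- The moment generating function of a signed sum. -/
theorem av_exp_lin {K : Type} [Fintype K] [DecidableEq K] (w : K → ℝ) :
    (av fun x : K → Bool => Real.exp (∑ k, w k * sg (x k))) ≤ Real.exp ((∑ k, w k ^ 2) / 2) := by
  have h1 : (fun x : K → Bool => Real.exp (∑ k, w k * sg (x k))) =
      fun x => ∏ k, Real.exp (w k * sg (x k)) := by
    funext x
    rw [Real.exp_sum]
  rw [h1, av_cube_prod (fun k b => Real.exp (w k * sg b)), sum_div, Real.exp_sum]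
  refine prod_le_prod (fun k _ => by positivity) fun k _ => ?_
  have h2 := Real.cosh_le_exp_half_sq (w k)
  rw [Real.cosh_eq] at h2
  simp only [sg_true, sg_false, mul_neg, mul_one]
  rw [add_comm]
  exact h2

/-- `e^(κ X²)` as a Gaussian average of exponentials of linear functions. -/
theorem exp_sq_eq (κ X : ℝ) (hκ : 0 ≤ κ) : Real.exp (κ * X ^ 2) =
    (∫ g : ℝ, Real.exp (Real.sqrt (2 * κ) * g * X - g ^ 2 / 2)) / Real.sqrt (2 * Real.pi) := by
  have h1 : ∀ g : ℝ, Real.exp (Real.sqrt (2 * κ) * g * X - g ^ 2 / 2) =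
      Real.exp (κ * X ^ 2) * Real.exp (-(1 / 2) * (g - Real.sqrt (2 * κ) * X) ^ 2) := by
    intro g
    rw [← Real.exp_add]
    congr 1
    have h2 : Real.sqrt (2 * κ) ^ 2 = 2 * κ := Real.sq_sqrt (by positivity)
    set c := Real.sqrt (2 * κ)
    have : (g - c * X) ^ 2 = g ^ 2 - 2 * (c * g * X) + 2 * κ * X ^ 2 := by
      rw [← h2]
      ring
    rw [this]
    ring
  simp_rw [h1]
  rw [MeasureTheory.integral_const_mul]
  rw [MeasureTheory.integral_sub_right_eq_self (fun g : ℝ => Real.exp (-(1 / 2) * g ^ 2)), integral_gaussian]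
  have h3 : Real.pi / (1 / 2) = 2 * Real.pi := by ring
  rw [h3]
  have h4 : Real.sqrt (2 * Real.pi) ≠ 0 := (Real.sqrt_pos.2 (by positivity)).ne'
  field_simp

/-- Integrability of the integrand of `exp_sq_eq`. -/
theorem exp_sq_integrable (c X : ℝ) :
    MeasureTheory.Integrable fun g : ℝ => Real.exp (c * g * X - g ^ 2 / 2) := by
  have h1 : (fun g : ℝ => Real.exp (c * g * X - g ^ 2 / 2)) =
      fun g => Real.exp ((c * X) ^ 2 / 2) * Real.exp (-(1 / 2) * (g - c * X) ^ 2) := by
    funext g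
    rw [← Real.exp_add]
    congr 1
    ring
  rw [h1]
  exact ((integrable_exp_neg_mul_sq (by norm_num : (0 : ℝ) < 1 / 2)).comp_sub_right (c * X)).const_mul _

/-- Exponential moment of the square of a signed sum: `E e^((3/8) <w,x>²) ≤ 2` for `|w| ≤ 1`. -/
theorem av_exp_sq {K : Type} [Fintype K] [DecidableEq K] (w : K → ℝ) (hw : ∑ k, w k ^ 2 ≤ 1) :
    (av fun x : K → Bool => Real.exp (3 / 8 * (∑ k, w k * sg (x k)) ^ 2)) ≤ 2 := by
  set c := Real.sqrt (2 * (3 / 8)) with hc
  have hc2 : c ^ 2 = 3 / 4 := by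
    rw [hc, Real.sq_sqrt (by norm_num)]
    norm_num
  have h1 : ∀ x : K → Bool, Real.exp (3 / 8 * (∑ k, w k * sg (x k)) ^ 2) =
      (∫ g : ℝ, Real.exp (c * g * (∑ k, w k * sg (x k)) - g ^ 2 / 2)) / Real.sqrt (2 * Real.pi) := by
    intro x
    exact exp_sq_eq _ _ (by norm_num)
  simp_rw [h1]
  have hpi : 0 < Real.sqrt (2 * Real.pi) := Real.sqrt_pos.2 (by positivity)
  have h2 : (av fun x : K → Bool =>
      (∫ g : ℝ, Real.exp (c * g * (∑ k, w k * sg (x k)) - g ^ 2 / 2)) / Real.sqrt (2 * Real.pi)) =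
      (∫ g : ℝ, av fun x : K → Bool => Real.exp (c * g * (∑ k, w k * sg (x k)) - g ^ 2 / 2)) /
        Real.sqrt (2 * Real.pi) := by
    unfold av
    rw [← sum_div, MeasureTheory.integral_div, MeasureTheory.integral_finsetSum]
    · ring
    · intro x _
      exact exp_sq_integrable c _
  rw [h2]
  have h3 : ∀ g : ℝ, (av fun x : K → Bool => Real.exp (c * g * (∑ k, w k * sg (x k)) - g ^ 2 / 2)) ≤
      Real.exp (-(1 / 8) * g ^ 2) := by
    intro g
    have e1 : (fun x : K → Bool => Real.exp (c * g * (∑ k, w k * sg (x k)) - g ^ 2 / 2)) =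
        fun x => Real.exp (∑ k, (c * g * w k) * sg (x k)) * Real.exp (-(g ^ 2 / 2)) := by
      funext x
      rw [← Real.exp_add, sub_eq_add_neg, mul_sum]
      congr 2
      refine sum_congr rfl fun k _ => by ring
    rw [e1, av_mul_right]
    refine (mul_le_mul_of_nonneg_right (av_exp_lin _) (Real.exp_pos _).le).trans ?_
    rw [← Real.exp_add]
    refine Real.exp_le_exp.2 ?_
    have e2 : ∑ k, (c * g * w k) ^ 2 = (3 / 4 * g ^ 2) * ∑ k, w k ^ 2 := by
      rw [mul_sum]
      refine sum_congr rfl fun k _ => ?_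
      rw [mul_pow, mul_pow, hc2]
    rw [e2]
    have : (3 / 4 * g ^ 2) * ∑ k, w k ^ 2 ≤ 3 / 4 * g ^ 2 := by
      have := mul_le_mul_of_nonneg_left hw (by positivity : (0 : ℝ) ≤ 3 / 4 * g ^ 2)
      linarith
    linarith
  have h4 : (∫ g : ℝ, av fun x : K → Bool => Real.exp (c * g * (∑ k, w k * sg (x k)) - g ^ 2 / 2)) ≤
      ∫ g : ℝ, Real.exp (-(1 / 8) * g ^ 2) := by
    refine MeasureTheory.integral_mono ?_ (integrable_exp_neg_mul_sq (by norm_num)) h3
    unfold av
    exact (MeasureTheory.integrable_finsetSum _ fun x _ => exp_sq_integrable c _).div_const _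
  rw [integral_gaussian] at h4
  rw [div_le_iff₀ hpi]
  refine h4.trans ?_
  have h5 : Real.pi / (1 / 8) = 2 ^ 2 * (2 * Real.pi) := by ring
  rw [h5, Real.sqrt_mul (by norm_num), Real.sqrt_sq (by norm_num)]

end Pool.Agent.H.MP_dd1c2e_lc.CS
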