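import Pool.Agent.H.MP_dd1c2e_lc.cs.Gibbs

/-!
# The level-(1,1) inequality

For a function `0 ≤ f ≤ 1` on the cube with coordinates `I ⊕ J` the Fourier coefficients of the pairs `{i, j}`, `i ∈ I`,
`j ∈ J`, have Euclidean norm at most `(5/4) μ (1 + log (1/μ))`, `μ` the mean of `f`.
-/

namespace Pool.Agent.H.MP_dd1c2e_lc.CS

open Finset

variable {I J : Type} [Fintype I] [Fintype J] [DecidableEq I] [DecidableEq J]

/-- The Fourier coefficient at the pair `{i, j}`. -/
noncomputable def co (f : (I ⊕ J → Bool) → ℝ) (i : I) (j : J) : ℝ :=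
  av fun x => f x * (sg (x (.inl i)) * sg (x (.inr j)))

/-- Average over a cube with coordinates in a sum type. -/
theorem av_sum_cube (F : (I → Bool) → (J → Bool) → ℝ) :
    (av fun x : I ⊕ J → Bool => F (fun i => x (.inl i)) (fun j => x (.inr j))) =
      av fun y : J → Bool => av fun x : I → Bool => F x y := by
  rw [av_comm]
  rw [← av_prod (fun p : (I → Bool) × (J → Bool) => F p.1 p.2)]
  rw [← av_equiv (Equiv.sumArrowEquivProdArrow I J Bool) (fun p : (I → Bool) × (J → Bool) => F p.1 p.2)]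
  rfl

/-- Exponential moment of a bilinear form of two independent sign vectors. -/
theorem av_exp_bil (M : I → J → ℝ) (hM : ∑ i, ∑ j, M i j ^ 2 = 1) :
    (av fun x : I ⊕ J → Bool => Real.exp (4 / 5 * ∑ i, ∑ j, M i j * (sg (x (.inl i)) * sg (x (.inr j))))) ≤ 2 := by
  have h1 := av_sum_cube (I := I) (J := J)
    (fun x y => Real.exp (4 / 5 * ∑ i, ∑ j, M i j * (sg (x i) * sg (y j))))
  rw [h1]
  set m : I → ℝ := fun i => ∑ j, M i j ^ 2 with hm
  have hm0 : ∀ i, 0 ≤ m i := fun i => sum_nonneg fun j _ => sq_nonneg _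
  -- the inner average
  have h2 : ∀ y : J → Bool, (av fun x : I → Bool => Real.exp (4 / 5 * ∑ i, ∑ j, M i j * (sg (x i) * sg (y j)))) ≤
      ∑ i, m i * Real.exp (3 / 8 * (∑ j, M i j / Real.sqrt (m i) * sg (y j)) ^ 2) := by
    intro y
    have e1 : (fun x : I → Bool => Real.exp (4 / 5 * ∑ i, ∑ j, M i j * (sg (x i) * sg (y j)))) =
        fun x => Real.exp (∑ i, (4 / 5 * ∑ j, M i j * sg (y j)) * sg (x i)) := by
      funext x
      congr 1
      rw [mul_sum]
      refine sum_congr rfl fun i _ => ?_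
      rw [mul_assoc, sum_mul]
      congr 1
      refine sum_congr rfl fun j _ => by ring
    rw [e1]
    refine (av_exp_lin _).trans ?_
    have h3 := convexOn_exp.map_sum_le (t := (univ : Finset I)) (w := m)
      (p := fun i => 8 / 25 * (∑ j, M i j / Real.sqrt (m i) * sg (y j)) ^ 2) (fun i _ => hm0 i) hM
      (fun i _ => Set.mem_univ _)
    simp only [smul_eq_mul] at h3
    have e2 : (∑ i, (4 / 5 * ∑ j, M i j * sg (y j)) ^ 2) / 2 =
        ∑ i, m i * (8 / 25 * (∑ j, M i j / Real.sqrt (m i) * sg (y j)) ^ 2) := by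
      rw [sum_div]
      refine sum_congr rfl fun i _ => ?_
      by_cases h0 : m i = 0
      · have h4 : ∀ j, M i j = 0 := by
          intro j
          have h5 := (sum_eq_zero_iff_of_nonneg (fun j _ => sq_nonneg (M i j))).1 h0 j (mem_univ j)
          exact pow_eq_zero_iff (two_ne_zero) |>.1 h5
        simp [h4, h0]
      · have h5 : 0 < m i := lt_of_le_of_ne (hm0 i) (Ne.symm h0)
        have e3 : ∑ j, M i j / Real.sqrt (m i) * sg (y j) = (∑ j, M i j * sg (y j)) / Real.sqrt (m i) := by
          rw [sum_div]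
          refine sum_congr rfl fun j _ => by ring
        rw [e3, div_pow, Real.sq_sqrt h5.le, mul_pow]
        field_simp
        ring
    rw [e2]
    refine h3.trans (sum_le_sum fun i _ => mul_le_mul_of_nonneg_left (Real.exp_le_exp.2 ?_) (hm0 i))
    refine mul_le_mul_of_nonneg_right (by norm_num) (sq_nonneg _)
  refine (av_mono h2).trans ?_
  rw [av_sum]
  have h6 : ∀ i, (av fun y : J → Bool => m i * Real.exp (3 / 8 * (∑ j, M i j / Real.sqrt (m i) * sg (y j)) ^ 2)) ≤
      m i * 2 := by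
    intro i
    rw [av_mul_left]
    refine mul_le_mul_of_nonneg_left (av_exp_sq _ ?_) (hm0 i)
    by_cases h0 : m i = 0
    · simp [h0]
    · have h5 : 0 < m i := lt_of_le_of_ne (hm0 i) (Ne.symm h0)
      have e4 : ∑ j, (M i j / Real.sqrt (m i)) ^ 2 = m i / m i := by
        simp only [div_pow, Real.sq_sqrt h5.le, ← sum_div]
        rfl
      rw [e4, div_self h0]
  refine (sum_le_sum fun i _ => h6 i).trans ?_
  rw [← sum_mul]
  have : ∑ i, m i = 1 := hM
  rw [this, one_mul]

/-- **Level-(1,1) inequality.** -/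
theorem level11 {f : (I ⊕ J → Bool) → ℝ} (h0 : ∀ x, 0 ≤ f x) (h1 : ∀ x, f x ≤ 1) :
    Real.sqrt (∑ i, ∑ j, co f i j ^ 2) ≤ 5 / 4 * (av f * (1 - Real.log (av f))) := by
  have hμ0 : 0 ≤ av f := av_nonneg h0
  have hμ1 : av f ≤ 1 := av_le_of_le h1
  have hR : 0 ≤ 5 / 4 * (av f * (1 - Real.log (av f))) := by
    have h2 : Real.log (av f) ≤ 0 := Real.log_nonpos hμ0 hμ1
    have h3 : 0 ≤ av f * (1 - Real.log (av f)) := mul_nonneg hμ0 (by linarith)
    linarith
  set V := Real.sqrt (∑ i, ∑ j, co f i j ^ 2) with hV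
  have hVnn : 0 ≤ V := Real.sqrt_nonneg _
  rcases hVnn.eq_or_lt with hV0 | hVpos
  · rw [← hV0]
    exact hR
  have hVsq : V ^ 2 = ∑ i, ∑ j, co f i j ^ 2 := Real.sq_sqrt (sum_nonneg fun i _ => sum_nonneg fun j _ => sq_nonneg _)
  have hμpos : 0 < av f := by
    rcases hμ0.eq_or_lt with h | h
    · exfalso
      have hc : (0 : ℝ) < Fintype.card (I ⊕ J → Bool) := by exact_mod_cast Fintype.card_pos
      have h4 : ∑ x, f x = 0 := by
        have h5 : (∑ x, f x) / Fintype.card (I ⊕ J → Bool) = 0 := h.symm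
        rcases div_eq_zero_iff.1 h5 with h6 | h6
        · exact h6
        · exact absurd h6 hc.ne'
      have h7 : ∀ x, f x = 0 := fun x => (sum_eq_zero_iff_of_nonneg (fun x _ => h0 x)).1 h4 x (mem_univ x)
      have h8 : ∀ i j, co f i j = 0 := by
        intro i j
        unfold co
        simp only [h7, zero_mul]
        exact av_const 0
      have : V = 0 := by
        rw [hV]
        simp [h8]
      exact hVpos.ne' this
    · exact h
  set M : I → J → ℝ := fun i j => co f i j / V with hMdef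
  have hM : ∑ i, ∑ j, M i j ^ 2 = 1 := by
    simp only [hMdef, div_pow, ← sum_div]
    rw [← hVsq]
    exact div_self (pow_pos hVpos 2).ne'
  have hg := gibbs (α := f) (g := fun x => 4 / 5 * ∑ i, ∑ j, M i j * (sg (x (.inl i)) * sg (x (.inr j)))) h0 h1 hμpos
  have hE := av_exp_bil M hM
  have e1 : (av fun x => f x * (4 / 5 * ∑ i, ∑ j, M i j * (sg (x (.inl i)) * sg (x (.inr j))))) = 4 / 5 * V := by
    have e2 : (fun x => f x * (4 / 5 * ∑ i, ∑ j, M i j * (sg (x (.inl i)) * sg (x (.inr j))))) =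
        fun x => ∑ i, ∑ j, (4 / 5 * M i j) * (f x * (sg (x (.inl i)) * sg (x (.inr j)))) := by
      funext x
      simp only [mul_sum]
      refine sum_congr rfl fun i _ => sum_congr rfl fun j _ => by ring
    rw [e2, av_sum]
    have e3 : ∀ i, (av fun x => ∑ j, (4 / 5 * M i j) * (f x * (sg (x (.inl i)) * sg (x (.inr j))))) =
        ∑ j, (4 / 5 * M i j) * co f i j := by
      intro i
      rw [av_sum]
      refine sum_congr rfl fun j _ => ?_
      rw [av_mul_left]
      rfl
    rw [sum_congr rfl fun i _ => e3 i]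
    have e4 : ∀ i j, (4 / 5 * M i j) * co f i j = 4 / 5 * (V * M i j ^ 2) := by
      intro i j
      simp only [hMdef]
      field_simp
    simp only [e4, ← mul_sum]
    rw [hM]
    ring
  rw [e1] at hg
  have h9 : Real.log ((av fun x : I ⊕ J → Bool => Real.exp (4 / 5 * ∑ i, ∑ j, M i j *
      (sg (x (.inl i)) * sg (x (.inr j))))) / av f) ≤ 1 - Real.log (av f) := by
    have hpos : 0 < av fun x : I ⊕ J → Bool => Real.exp (4 / 5 * ∑ i, ∑ j, M i j *
        (sg (x (.inl i)) * sg (x (.inr j)))) := by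
      unfold av
      refine div_pos (sum_pos (fun x _ => Real.exp_pos _) univ_nonempty) ?_
      exact_mod_cast Fintype.card_pos
    rw [Real.log_div hpos.ne' hμpos.ne']
    have h10 : Real.log (av fun x : I ⊕ J → Bool => Real.exp (4 / 5 * ∑ i, ∑ j, M i j *
        (sg (x (.inl i)) * sg (x (.inr j))))) ≤ 1 := by
      refine (Real.log_le_log hpos hE).trans ?_
      have := Real.log_two_lt_d9
      linarith
    linarith
  have h11 := hg.trans (mul_le_mul_of_nonneg_left h9 hμ0)
  linarith

end Pool.Agent.H.MP_dd1c2e_lc.CS
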