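import Pool.Agent.H.MP_dd1c2e_lc.cs.Lev

/-!
# Weighted protocols and their level-(1,1) Fourier mass

A `TFam` is the list of the leaves of a protocol with weights: functions `α_t`, `β_t` with values in `[0,1]` and
`∑_t α_t(x) β_t(y) ≤ 1`. Its function of `z = x ⊕ y` is `h(z) = ∑_t E_x α_t(x) β_t(x ⊕ z)`.
-/

namespace Pool.Agent.H.MP_dd1c2e_lc.CS

open Finset

/-- Pointwise exclusive or. -/
def px {K : Type} (x z : K → Bool) : K → Bool := fun k => xor (x k) (z k)

theorem px_px {K : Type} (x z : K → Bool) : px x (px x z) = z := by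
  funext k
  simp [px]

theorem px_comm {K : Type} (x z : K → Bool) : px x z = px z x := by
  funext k
  simp [px, Bool.xor_comm]

/-- Translation as a permutation of the cube. -/
def pxEquiv {K : Type} (x : K → Bool) : (K → Bool) ≃ (K → Bool) where
  toFun := px x
  invFun := px x
  left_inv := px_px x
  right_inv := px_px x

/-- A weighted protocol with the list `τ` of leaves. -/
structure TFam (K τ : Type) [Fintype τ] where
  /-- the weight of Alice -/
  al : τ → (K → Bool) → ℝ
  /-- the weight of Bob -/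
  be : τ → (K → Bool) → ℝ
  al0 : ∀ t x, 0 ≤ al t x
  al1 : ∀ t x, al t x ≤ 1
  be0 : ∀ t x, 0 ≤ be t x
  be1 : ∀ t x, be t x ≤ 1
  sle : ∀ x y, ∑ t, al t x * be t y ≤ 1

variable {K τ : Type} [Fintype K] [DecidableEq K] [Fintype τ]

/-- The total weight as a function of `z = x ⊕ y`, `x` uniform. -/
noncomputable def TFam.h (F : TFam K τ) (z : K → Bool) : ℝ := ∑ t, av fun x => F.al t x * F.be t (px x z)

omit [DecidableEq K] in
theorem TFam.h_nonneg [DecidableEq K] (F : TFam K τ) (z : K → Bool) : 0 ≤ F.h z :=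
  sum_nonneg fun t _ => av_nonneg fun x => mul_nonneg (F.al0 t x) (F.be0 t _)

theorem TFam.h_le_one (F : TFam K τ) (z : K → Bool) : F.h z ≤ 1 := by
  unfold TFam.h
  rw [← av_sum]
  exact av_le_of_le fun x => F.sle x _

/-- `√p (1 + log (1/p))² ≤ 4` in the form that is used. -/
theorem p_log_le {p M : ℝ} (hp0 : 0 ≤ p) (hp1 : p ≤ 1) (hM : 1 ≤ M) :
    p * (1 - Real.log p) ^ 2 ≤ p * (1 + 2 * Real.log M) ^ 2 + 4 / M := by
  have hM0 : 0 < M := by linarith
  have hlM : 0 ≤ Real.log M := Real.log_nonneg hM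
  have h4 : 0 ≤ 4 / M := by positivity
  rcases hp0.eq_or_lt with h | hp
  · rw [← h]
    simp only [zero_mul, zero_add]
    exact h4
  have hlp : Real.log p ≤ 0 := Real.log_nonpos hp0 hp1
  by_cases hc : 1 / M ^ 2 ≤ p
  · have h1 : -Real.log p ≤ 2 * Real.log M := by
      have h2 := Real.log_le_log (by positivity) hc
      rw [one_div, Real.log_inv, Real.log_pow] at h2
      push_cast at h2
      linarith
    have h3 : (1 - Real.log p) ^ 2 ≤ (1 + 2 * Real.log M) ^ 2 := pow_le_pow_left₀ (by linarith) (by linarith) 2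
    have := mul_le_mul_of_nonneg_left h3 hp0
    linarith
  · push Not at hc
    set u := -Real.log p with hu
    have hu0 : 0 ≤ u := by linarith
    have e1 : p = Real.exp (-u) := by
      rw [hu, neg_neg, Real.exp_log hp]
    have h5 : 1 + u ≤ 2 * Real.exp (u / 4) := by
      have h6 := Real.quadratic_le_exp_of_nonneg (show 0 ≤ u / 4 by linarith)
      nlinarith [sq_nonneg (1 - u / 4)]
    have h7 : (1 + u) ^ 2 ≤ 4 * Real.exp (u / 2) := by
      have h8 := pow_le_pow_left₀ (by linarith) h5 2
      have h9 : (2 * Real.exp (u / 4)) ^ 2 = 4 * Real.exp (u / 2) := by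
        rw [mul_pow, ← Real.exp_nat_mul]
        norm_num
        ring_nf
      rw [h9] at h8
      exact h8
    have h10 : Real.exp (-(u / 2)) ≤ 1 / M := by
      have h11 : Real.exp (-(u / 2)) ^ 2 = p := by
        rw [← Real.exp_nat_mul, e1]
        congr 1
        push_cast
        ring
      have h12 : (Real.exp (-(u / 2))) ^ 2 ≤ (1 / M) ^ 2 := by
        rw [h11, div_pow, one_pow]
        exact hc.le
      exact (pow_le_pow_iff_left₀ (Real.exp_pos _).le (by positivity) two_ne_zero).1 h12
    have h13 : p * (1 - Real.log p) ^ 2 ≤ 4 / M := by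
      have e2 : 1 - Real.log p = 1 + u := by
        rw [hu]
        ring
      rw [e2]
      have h14 : p * (1 + u) ^ 2 ≤ p * (4 * Real.exp (u / 2)) := mul_le_mul_of_nonneg_left h7 hp0
      refine h14.trans ?_
      have e3 : p * (4 * Real.exp (u / 2)) = 4 * Real.exp (-(u / 2)) := by
        rw [e1, mul_left_comm, ← Real.exp_add]
        congr 2
        ring
      rw [e3]
      have := mul_le_mul_of_nonneg_left h10 (by norm_num : (0 : ℝ) ≤ 4)
      rw [mul_one_div] at this
      exact this
    have h15 : 0 ≤ p * (1 + 2 * Real.log M) ^ 2 := mul_nonneg hp0 (sq_nonneg _)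
    linarith

/-- The bound for the level-(1,1) mass of a weighted protocol with at most `M` leaves. -/
noncomputable def Bd (M : ℝ) : ℝ := 25 / 16 * ((1 + 2 * Real.log M) ^ 2 + 4)

theorem Bd_nonneg (M : ℝ) : 0 ≤ Bd M := by
  unfold Bd
  positivity

section lev

variable {I J : Type} [Fintype I] [Fintype J] [DecidableEq I] [DecidableEq J]

theorem co_h (F : TFam (I ⊕ J) τ) (i : I) (j : J) : co F.h i j = ∑ t, co (F.al t) i j * co (F.be t) i j := by
  unfold co TFam.h
  have e1 : (fun z : I ⊕ J → Bool => (∑ t, av fun x => F.al t x * F.be t (px x z)) *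
      (sg (z (.inl i)) * sg (z (.inr j)))) = fun z => ∑ t, av fun x => F.al t x * F.be t (px x z) *
        (sg (z (.inl i)) * sg (z (.inr j))) := by
    funext z
    rw [sum_mul]
    refine sum_congr rfl fun t _ => ?_
    rw [av_mul_right]
  rw [e1, av_sum]
  refine sum_congr rfl fun t _ => ?_
  rw [av_comm]
  have e2 : ∀ x : I ⊕ J → Bool, (av fun z => F.al t x * F.be t (px x z) * (sg (z (.inl i)) * sg (z (.inr j)))) =
      F.al t x * (sg (x (.inl i)) * sg (x (.inr j))) * av fun y => F.be t y * (sg (y (.inl i)) * sg (y (.inr j))) := by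
    intro x
    rw [← av_equiv (pxEquiv x), ← av_mul_left]
    congr 1
    funext y
    show F.al t x * F.be t (px x (px x y)) * (sg (px x y (.inl i)) * sg (px x y (.inr j))) = _
    rw [px_px]
    unfold px
    rw [sg_xor, sg_xor]
    ring
  simp_rw [e2]
  rw [av_mul_right]

omit [DecidableEq I] [DecidableEq J] in
theorem co_cs (a b : I → J → ℝ) : ∑ i, ∑ j, |a i j * b i j| ≤
    Real.sqrt (∑ i, ∑ j, a i j ^ 2) * Real.sqrt (∑ i, ∑ j, b i j ^ 2) := by
  have h1 := Real.sum_mul_le_sqrt_mul_sqrt (univ : Finset (I × J)) (fun p => |a p.1 p.2|) (fun p => |b p.1 p.2|)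
  simp only [sq_abs, ← abs_mul] at h1
  rw [Fintype.sum_prod_type, Fintype.sum_prod_type, Fintype.sum_prod_type] at h1
  exact h1

/-- The level-(1,1) mass of a weighted protocol. -/
theorem TFam.lev (F : TFam (I ⊕ J) τ) {M : ℝ} (hM1 : 1 ≤ M) (hM : (Fintype.card τ : ℝ) ≤ M) :
    ∑ i, ∑ j, |co F.h i j| ≤ Bd M := by
  have h1 : ∑ i, ∑ j, |co F.h i j| ≤ ∑ t, ∑ i, ∑ j, |co (F.al t) i j * co (F.be t) i j| := by
    have h0 : ∑ t, ∑ i, ∑ j, |co (F.al t) i j * co (F.be t) i j| =
        ∑ i, ∑ j, ∑ t, |co (F.al t) i j * co (F.be t) i j| := by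
      rw [sum_comm]
      refine sum_congr rfl fun i _ => ?_
      rw [sum_comm]
    rw [h0]
    refine sum_le_sum fun i _ => sum_le_sum fun j _ => ?_
    rw [co_h]
    exact abs_sum_le_sum_abs _ _
  refine h1.trans ?_
  set p : τ → ℝ := fun t => av (F.al t) * av (F.be t) with hp
  have hμ0 : ∀ t, 0 ≤ av (F.al t) := fun t => av_nonneg (F.al0 t)
  have hν0 : ∀ t, 0 ≤ av (F.be t) := fun t => av_nonneg (F.be0 t)
  have hμ1 : ∀ t, av (F.al t) ≤ 1 := fun t => av_le_of_le (F.al1 t)
  have hν1 : ∀ t, av (F.be t) ≤ 1 := fun t => av_le_of_le (F.be1 t)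
  have hp0 : ∀ t, 0 ≤ p t := fun t => mul_nonneg (hμ0 t) (hν0 t)
  have hp1 : ∀ t, p t ≤ 1 := fun t => mul_le_one₀ (hμ1 t) (hν0 t) (hν1 t)
  have hps : ∑ t, p t ≤ 1 := by
    have e1 : ∑ t, p t = av fun x => av fun y => ∑ t, F.al t x * F.be t y := by
      have e2 : ∀ x : I ⊕ J → Bool, (av fun y => ∑ t, F.al t x * F.be t y) = ∑ t, F.al t x * av (F.be t) := by
        intro x
        rw [av_sum]
        refine sum_congr rfl fun t _ => ?_
        rw [av_mul_left]
      simp_rw [e2]
      rw [av_sum]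
      refine sum_congr rfl fun t _ => ?_
      rw [av_mul_right]
    rw [e1]
    exact av_le_of_le fun x => av_le_of_le fun y => F.sle x y
  have h2 : ∀ t, ∑ i, ∑ j, |co (F.al t) i j * co (F.be t) i j| ≤
      25 / 16 * (p t * (1 + 2 * Real.log M) ^ 2 + 4 / M) := by
    intro t
    refine (co_cs _ _).trans ?_
    have h3 := level11 (F.al0 t) (F.al1 t)
    have h4 := level11 (F.be0 t) (F.be1 t)
    refine (mul_le_mul h3 h4 (Real.sqrt_nonneg _) ((Real.sqrt_nonneg _).trans h3)).trans ?_
    have h5 : av (F.al t) * (1 - Real.log (av (F.al t))) * (av (F.be t) * (1 - Real.log (av (F.be t)))) ≤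
        p t * (1 - Real.log (p t)) ^ 2 := by
      rcases (hμ0 t).eq_or_lt with h | h
      · have : p t = 0 := by
          show av (F.al t) * av (F.be t) = 0
          rw [← h, zero_mul]
        rw [this, ← h]
        simp
      rcases (hν0 t).eq_or_lt with h' | h'
      · have : p t = 0 := by
          show av (F.al t) * av (F.be t) = 0
          rw [← h', mul_zero]
        rw [this, ← h']
        simp
      have hlog : Real.log (p t) = Real.log (av (F.al t)) + Real.log (av (F.be t)) := Real.log_mul h.ne' h'.ne'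
      have hla := Real.log_nonpos (hμ0 t) (hμ1 t)
      have hlb := Real.log_nonpos (hν0 t) (hν1 t)
      have h6 : (1 - Real.log (av (F.al t))) * (1 - Real.log (av (F.be t))) ≤ (1 - Real.log (p t)) ^ 2 := by
        rw [hlog, pow_two]
        refine mul_le_mul (by linarith) (by linarith) (by linarith) (by linarith)
      calc _ = p t * ((1 - Real.log (av (F.al t))) * (1 - Real.log (av (F.be t)))) := by
            simp only [hp]
            ring
        _ ≤ _ := mul_le_mul_of_nonneg_left h6 (hp0 t)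
    have h7 := p_log_le (hp0 t) (hp1 t) hM1
    calc _ = 25 / 16 * (av (F.al t) * (1 - Real.log (av (F.al t))) *
          (av (F.be t) * (1 - Real.log (av (F.be t))))) := by ring
      _ ≤ _ := mul_le_mul_of_nonneg_left (h5.trans h7) (by norm_num)
  refine (sum_le_sum fun t _ => h2 t).trans ?_
  rw [← mul_sum, sum_add_distrib, ← sum_mul, sum_const, card_univ, nsmul_eq_mul]
  unfold Bd
  refine mul_le_mul_of_nonneg_left (add_le_add ?_ ?_) (by norm_num)
  · exact mul_le_of_le_one_left (sq_nonneg _) hps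
  · rw [mul_div_assoc', div_le_iff₀ (by linarith)]
    nlinarith

end lev

/-- Average over the cube in two steps: the coordinates outside `S` first. -/
theorem av_pw (S : Finset K) (G : (K → Bool) → ℝ) :
    av G = av fun x0 : K → Bool => av fun x => G (S.piecewise x x0) := by
  have e : Function.Involutive (fun p : (K → Bool) × (K → Bool) => (S.piecewise p.1 p.2, S.piecewise p.2 p.1)) := by
    rintro ⟨a, b⟩
    ext k <;> by_cases hk : k ∈ S <;> simp [hk]
  have h1 : (av fun p : (K → Bool) × (K → Bool) => G p.2) = av G := by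
    rw [av_prod]
    exact av_const (Ω := K → Bool) (av G)
  rw [← h1, ← av_equiv e.toPerm (fun p : (K → Bool) × (K → Bool) => G p.2)]
  rw [av_prod]
  rfl

/-- The restriction of a weighted protocol: the coordinates outside `S` are fixed, to `x0` for Alice and to `x0 ⊕ r` for
Bob. -/
def TFam.restr (F : TFam K τ) (S : Finset K) (r x0 : K → Bool) : TFam K τ where
  al t x := F.al t (S.piecewise x x0)
  be t y := F.be t (S.piecewise y (px x0 r))
  al0 t _ := F.al0 t _
  al1 t _ := F.al1 t _
  be0 t _ := F.be0 t _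
  be1 t _ := F.be1 t _
  sle _ _ := F.sle _ _

theorem TFam.h_restr (F : TFam K τ) (S : Finset K) (r z : K → Bool) :
    F.h (S.piecewise z r) = av fun x0 => (F.restr S r x0).h z := by
  unfold TFam.h
  rw [av_sum]
  refine sum_congr rfl fun t _ => ?_
  rw [av_pw S]
  congr 1
  funext x0
  congr 1
  funext x
  show F.al t (S.piecewise x x0) * F.be t (px (S.piecewise x x0) (S.piecewise z r)) =
    F.al t (S.piecewise x x0) * F.be t (S.piecewise (px x z) (px x0 r))
  congr 2
  funext k
  by_cases hk : k ∈ S <;> simp [hk, px]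

/-- The level-(1,1) mass of a restriction. -/
theorem TFam.lev_restr {I J : Type} [Fintype I] [Fintype J] [DecidableEq I] [DecidableEq J]
    (F : TFam (I ⊕ J) τ) {M : ℝ} (hM1 : 1 ≤ M) (hM : (Fintype.card τ : ℝ) ≤ M) (S : Finset (I ⊕ J))
    (r : I ⊕ J → Bool) : ∑ i, ∑ j, |co (fun z => F.h (S.piecewise z r)) i j| ≤ Bd M := by
  have h1 : ∀ i j, co (fun z => F.h (S.piecewise z r)) i j = av fun x0 => co (F.restr S r x0).h i j := by
    intro i j
    unfold co
    simp_rw [TFam.h_restr]
    have e1 : ∀ z : I ⊕ J → Bool, (av fun x0 => (F.restr S r x0).h z) * (sg (z (.inl i)) * sg (z (.inr j))) =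
        av fun x0 => (F.restr S r x0).h z * (sg (z (.inl i)) * sg (z (.inr j))) := by
      intro z
      rw [av_mul_right]
    simp_rw [e1]
    rw [av_comm]
  have h2 : ∑ i, ∑ j, |co (fun z => F.h (S.piecewise z r)) i j| ≤
      ∑ i, ∑ j, av fun x0 => |co (F.restr S r x0).h i j| :=
    sum_le_sum fun i _ => sum_le_sum fun j _ => by
      rw [h1]
      exact abs_av_le _
  refine h2.trans ?_
  have h3 : ∑ i, ∑ j, (av fun x0 => |co (F.restr S r x0).h i j|) = av fun x0 => ∑ i, ∑ j, |co (F.restr S r x0).h i j| := by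
    rw [av_sum]
    refine sum_congr rfl fun i _ => ?_
    rw [av_sum]
  rw [h3]
  exact av_le_of_le fun x0 => (F.restr S r x0).lev hM1 hM

end Pool.Agent.H.MP_dd1c2e_lc.CS
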