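import Pool.Agent.H.MP_dd1c2e_lc.cs.TFam

/-!
# The stopped walk

`I`, `J` index the two halves of the coordinates and `H` is a matrix with entries `±1`. A step of the walk adds
`± (a e_i, b H_i)` for a uniformly chosen row `i` and a uniform sign; the walk stops when it leaves the box `[-1/2,1/2]^K`.
-/

set_option linter.unusedSectionVars false

namespace Pool.Agent.H.MP_dd1c2e_lc.CS

open Finset

variable {I J K : Type} [Fintype I] [Fintype J] [DecidableEq I] [DecidableEq J] [Fintype K] [DecidableEq K]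

/-- The step of the walk with the sign `p.1` and the row `p.2`. -/
noncomputable def stp (H : I → J → ℝ) (a b : ℝ) (p : Bool × I) : I ⊕ J → ℝ
  | .inl i => if i = p.2 then sg p.1 * a else 0
  | .inr j => sg p.1 * (b * H p.2 j)

/-- The box `[-1/2, 1/2]^K`. -/
def Box (w : K → ℝ) : Prop := ∀ k, |w k| ≤ 1 / 2

open Classical in
/-- One step of the stopped walk as an operator on functions. -/
noncomputable def Qop (H : I → J → ℝ) (a b : ℝ) (V : (I ⊕ J → ℝ) → ℝ) (w : I ⊕ J → ℝ) : ℝ :=
  if Box w then av (fun p : Bool × I => V (fun k => w k + stp H a b p k)) else V w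

/-- The probability of `z` under independent rounding of `w`. -/
noncomputable def rnd (w : K → ℝ) (z : K → Bool) : ℝ := ∏ k, ((1 + w k * sg (z k)) / 2)

/-- The law of the rounding of the position of the stopped walk after `R` steps. -/
noncomputable def Ds (H : I → J → ℝ) (a b : ℝ) (R : ℕ) (z : I ⊕ J → Bool) : ℝ :=
  (Qop H a b)^[R] (fun w => rnd w z) 0

theorem Qop_mono {H : I → J → ℝ} {a b : ℝ} {V W : (I ⊕ J → ℝ) → ℝ} (h : ∀ w, V w ≤ W w) (w : I ⊕ J → ℝ) :
    Qop H a b V w ≤ Qop H a b W w := by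
  unfold Qop
  split_ifs
  · exact av_mono fun p => h _
  · exact h w

theorem Qop_iter_mono {H : I → J → ℝ} {a b : ℝ} {V W : (I ⊕ J → ℝ) → ℝ} (h : ∀ w, V w ≤ W w) (R : ℕ)
    (w : I ⊕ J → ℝ) : (Qop H a b)^[R] V w ≤ (Qop H a b)^[R] W w := by
  induction R generalizing V W w with
  | zero => exact h w
  | succ n ih =>
    rw [Function.iterate_succ_apply, Function.iterate_succ_apply]
    exact ih (Qop_mono h) w

/-- The region in which the walk moves. -/
def Big (w : K → ℝ) : Prop := ∀ k, |w k| ≤ 1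

/-- The step keeps the walk in `[-1,1]^K` when started from the box. -/
theorem big_step {H : I → J → ℝ} (hH : ∀ i j, H i j ^ 2 = 1) {a b : ℝ} (ha0 : 0 ≤ a) (ha : a ≤ 1 / 2) (hb0 : 0 ≤ b)
    (hb : b ≤ 1 / 2) {w : I ⊕ J → ℝ} (hw : Box w) (p : Bool × I) : Big (fun k => w k + stp H a b p k) := by
  intro k
  have h1 : |stp H a b p k| ≤ 1 / 2 := by
    cases k with
    | inl i =>
      simp only [stp]
      split_ifs
      · rw [abs_mul, abs_sg, one_mul, abs_of_nonneg ha0]
        exact ha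
      · simp
    | inr j =>
      simp only [stp]
      have h2 : |H p.2 j| = 1 := by
        have := hH p.2 j
        rw [← sq_abs] at this
        exact (pow_eq_one_iff_of_nonneg (abs_nonneg _) two_ne_zero).1 this
      rw [abs_mul, abs_sg, one_mul, abs_mul, h2, mul_one, abs_of_nonneg hb0]
      exact hb
  have h3 := abs_add_le (w k) (stp H a b p k)
  have h4 := hw k
  linarith

/-- Comparison on the region `Big` only. -/
theorem Qop_iter_mono_big {H : I → J → ℝ} (hH : ∀ i j, H i j ^ 2 = 1) {a b : ℝ} (ha0 : 0 ≤ a) (ha : a ≤ 1 / 2)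
    (hb0 : 0 ≤ b) (hb : b ≤ 1 / 2) {V W : (I ⊕ J → ℝ) → ℝ} (h : ∀ w, Big w → V w ≤ W w) (R : ℕ)
    {w : I ⊕ J → ℝ} (hw : Big w) : (Qop H a b)^[R] V w ≤ (Qop H a b)^[R] W w := by
  induction R generalizing V W w with
  | zero => exact h w hw
  | succ n ih =>
    rw [Function.iterate_succ_apply, Function.iterate_succ_apply]
    refine ih (fun w' hw' => ?_) hw
    unfold Qop
    split_ifs with hb'
    · exact av_mono fun p => h _ (big_step hH ha0 ha hb0 hb hb' p)
    · exact h w' hw'

theorem big_zero : Big (0 : K → ℝ) := by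
  intro k
  simp

/-- The operator is linear. -/
theorem Qop_sum {ι : Type} (H : I → J → ℝ) (a b : ℝ) (s : Finset ι) (c : ι → ℝ) (V : ι → (I ⊕ J → ℝ) → ℝ) :
    Qop H a b (fun w => ∑ t ∈ s, c t * V t w) = fun w => ∑ t ∈ s, c t * Qop H a b (V t) w := by
  funext w
  unfold Qop
  split_ifs
  · rw [av_sum]
    refine sum_congr rfl fun t _ => ?_
    rw [av_mul_left]
  · rfl

theorem Qop_iter_sum {ι : Type} (H : I → J → ℝ) (a b : ℝ) (R : ℕ) (s : Finset ι) (c : ι → ℝ)
    (V : ι → (I ⊕ J → ℝ) → ℝ) : (Qop H a b)^[R] (fun w => ∑ t ∈ s, c t * V t w) =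
      fun w => ∑ t ∈ s, c t * (Qop H a b)^[R] (V t) w := by
  induction R generalizing V with
  | zero => rfl
  | succ n ih =>
    simp only [Function.iterate_succ_apply]
    rw [Qop_sum, ih]

theorem Qop_const [Nonempty I] (H : I → J → ℝ) (a b c : ℝ) : Qop H a b (fun _ => c) = fun _ => c := by
  funext w
  unfold Qop
  split_ifs
  · exact av_const c
  · rfl

theorem Qop_iter_const [Nonempty I] (H : I → J → ℝ) (a b c : ℝ) (R : ℕ) :
    (Qop H a b)^[R] (fun _ => c) = fun _ => c := by
  induction R with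
  | zero => rfl
  | succ n ih => rw [Function.iterate_succ_apply, Qop_const, ih]

theorem rnd_nonneg {w : K → ℝ} (hw : Big w) (z : K → Bool) : 0 ≤ rnd w z := by
  unfold rnd
  refine prod_nonneg fun k _ => ?_
  have h := abs_le.1 (hw k)
  cases z k
  · simp only [sg_false, mul_one]
    linarith [h.1, h.2]
  · simp only [sg_true, mul_neg, mul_one]
    linarith [h.1, h.2]

theorem rnd_sum (w : K → ℝ) : ∑ z : K → Bool, rnd w z = 1 := by
  have h1 := av_cube_prod (K := K) (fun k b => 1 + w k * sg b)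
  unfold av at h1
  have h2 : (Fintype.card (K → Bool) : ℝ) = 2 ^ Fintype.card K := by
    rw [Fintype.card_fun, Fintype.card_bool]
    push_cast
    rfl
  have h3 : ∀ z : K → Bool, rnd w z = (∏ k, (1 + w k * sg (z k))) / 2 ^ Fintype.card K := by
    intro z
    unfold rnd
    rw [prod_div_distrib, prod_const, card_univ]
  simp_rw [h3]
  rw [← sum_div, ← h2, h1]
  refine prod_eq_one fun k _ => ?_
  simp only [sg_true, sg_false]
  ring

/-- `Ds` is a probability distribution. -/
theorem Ds_nonneg {H : I → J → ℝ} (hH : ∀ i j, H i j ^ 2 = 1) {a b : ℝ} (ha0 : 0 ≤ a) (ha : a ≤ 1 / 2) (hb0 : 0 ≤ b)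
    (hb : b ≤ 1 / 2) [Nonempty I] (R : ℕ) (z : I ⊕ J → Bool) : 0 ≤ Ds H a b R z := by
  have h1 := Qop_iter_mono_big (V := fun _ => 0) (W := fun w => rnd w z) hH ha0 ha hb0 hb
    (fun w hw => rnd_nonneg hw z) R big_zero
  rw [Qop_iter_const] at h1
  exact h1

theorem Ds_expect (H : I → J → ℝ) (a b : ℝ) (R : ℕ) (g : (I ⊕ J → Bool) → ℝ) :
    ∑ z, g z * Ds H a b R z = (Qop H a b)^[R] (fun w => ∑ z, g z * rnd w z) 0 := by
  rw [Qop_iter_sum]
  rfl

theorem Ds_sum [Nonempty I] (H : I → J → ℝ) (a b : ℝ) (R : ℕ) : ∑ z, Ds H a b R z = 1 := by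
  have h1 := Ds_expect H a b R (fun _ => 1)
  simp only [one_mul] at h1
  rw [h1]
  simp_rw [rnd_sum]
  rw [Qop_iter_const]

end Pool.Agent.H.MP_dd1c2e_lc.CS
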